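import Mathlib

/-!
# Symmetrisation lemma (helper94)

`B` a positive semidefinite symmetric bilinear form on a real vector space `M`,
`τ i j` (`i, j < n`) operators which satisfy the relations of the transpositions of the
symmetric group on `n` letters, isometric for `B`.  `US τ X j` is the projection of `X`
onto the vectors symmetric in the legs `0, …, j-1`.
-/

namespace KLS94

open Finset

variable {M : Type*} [AddCommGroup M] [Module ℝ M]

/-- relations of the transpositions of the first `n` legs -/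
structure Trans (n : ℕ) (B : M →ₗ[ℝ] M →ₗ[ℝ] ℝ) (τ : ℕ → ℕ → M →ₗ[ℝ] M) : Prop where
  symm : ∀ x y, B x y = B y x
  nonneg : ∀ x, 0 ≤ B x x
  comm : ∀ i j x, i < n → j < n → i ≠ j → τ i j x = τ j i x
  inv : ∀ i j x, i < n → j < n → i ≠ j → τ i j (τ i j x) = x
  adj : ∀ i j x y, i < n → j < n → i ≠ j → B (τ i j x) y = B x (τ i j y)
  slide : ∀ i j k x, i < n → j < n → k < n → i ≠ j → j ≠ k → i ≠ k →
    τ i j (τ j k x) = τ i k (τ i j x)
  disj : ∀ i j k l x, i < n → j < n → k < n → l < n → i ≠ j → i ≠ k → i ≠ l → j ≠ k → j ≠ l →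
    k ≠ l → τ i j (τ k l x) = τ k l (τ i j x)

/-- the projections on the vectors symmetric in the first `j` legs -/
noncomputable def US (τ : ℕ → ℕ → M →ₗ[ℝ] M) (X : M) : ℕ → M
  | 0 => X
  | (j + 1) => ((j : ℝ) + 1)⁻¹ • (US τ X j + ∑ i ∈ range j, τ i j (US τ X j))

/-- antisymmetriser of two legs -/
noncomputable def Am (τ : ℕ → ℕ → M →ₗ[ℝ] M) (i j : ℕ) (x : M) : M :=
  (1 / 2 : ℝ) • (x - τ i j x)

section basic

variable {n : ℕ} {B : M →ₗ[ℝ] M →ₗ[ℝ] ℝ} {τ : ℕ → ℕ → M →ₗ[ℝ] M}

theorem Trans.mono {m : ℕ} (h : Trans n B τ) (hm : m ≤ n) : Trans m B τ where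
  symm := h.symm
  nonneg := h.nonneg
  comm i j x hi hj hij := h.comm i j x (by omega) (by omega) hij
  inv i j x hi hj hij := h.inv i j x (by omega) (by omega) hij
  adj i j x y hi hj hij := h.adj i j x y (by omega) (by omega) hij
  slide i j k x hi hj hk h1 h2 h3 := h.slide i j k x (by omega) (by omega) (by omega) h1 h2 h3
  disj i j k l x hi hj hk hl h1 h2 h3 h4 h5 h6 :=
    h.disj i j k l x (by omega) (by omega) (by omega) (by omega) h1 h2 h3 h4 h5 h6

theorem US_zero (X : M) : US τ X 0 = X := rfl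

theorem US_one (X : M) : US τ X 1 = X := by
  simp [US]

theorem US_succ (X : M) (j : ℕ) :
    ((j : ℝ) + 1) • US τ X (j + 1) = US τ X j + ∑ i ∈ range j, τ i j (US τ X j) := by
  have h : ((j : ℝ) + 1) ≠ 0 := by positivity
  rw [US, smul_smul, mul_inv_cancel₀ h, one_smul]

theorem cs (h : Trans n B τ) (x y : M) : (B x y) ^ 2 ≤ B x x * B y y := by
  have key : ∀ s : ℝ, 0 ≤ B y y * (s * s) + (2 * B x y) * s + B x x := by
    intro s
    have := h.nonneg (x + s • y)
    simp only [map_add, map_smul, LinearMap.add_apply, LinearMap.smul_apply, smul_eq_mul] at this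
    rw [h.symm y x] at this
    nlinarith
  have := discrim_le_zero key
  rw [discrim] at this
  nlinarith

/-- `x` has `B`-norm at most `a` -/
def NL (B : M →ₗ[ℝ] M →ₗ[ℝ] ℝ) (x : M) (a : ℝ) : Prop := 0 ≤ a ∧ B x x ≤ a ^ 2

theorem NL.abs (h : Trans n B τ) {x y : M} {a b : ℝ} (hx : NL B x a) (hy : NL B y b) :
    |B x y| ≤ a * b := by
  apply abs_le_of_sq_le_sq _ (mul_nonneg hx.1 hy.1)
  calc (B x y) ^ 2 ≤ B x x * B y y := cs h x y
    _ ≤ a ^ 2 * b ^ 2 := mul_le_mul hx.2 hy.2 (h.nonneg y) (by positivity)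
    _ = (a * b) ^ 2 := by ring

theorem NL.add (h : Trans n B τ) {x y : M} {a b : ℝ} (hx : NL B x a) (hy : NL B y b) :
    NL B (x + y) (a + b) := by
  refine ⟨add_nonneg hx.1 hy.1, ?_⟩
  have h1 := (abs_le.1 (NL.abs h hx hy)).2
  simp only [map_add, LinearMap.add_apply]
  rw [h.symm y x]
  nlinarith [hx.2, hy.2]

theorem NL.smul {x : M} {a c : ℝ} (hx : NL B x a) (hc : 0 ≤ c) : NL B (c • x) (c * a) := by
  refine ⟨mul_nonneg hc hx.1, ?_⟩
  simp only [map_smul, LinearMap.smul_apply, smul_eq_mul]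
  have : c * (c * B x x) = c ^ 2 * B x x := by ring
  rw [this, mul_pow]
  exact mul_le_mul_of_nonneg_left hx.2 (by positivity)

theorem NL.neg {x : M} {a : ℝ} (hx : NL B x a) : NL B (-x) a := by
  refine ⟨hx.1, ?_⟩
  simpa using hx.2

theorem NL.sub (h : Trans n B τ) {x y : M} {a b : ℝ} (hx : NL B x a) (hy : NL B y b) :
    NL B (x - y) (a + b) := by
  rw [sub_eq_add_neg]; exact NL.add h hx hy.neg

theorem NL.mono {x : M} {a b : ℝ} (hx : NL B x a) (hab : a ≤ b) : NL B x b :=
  ⟨hx.1.trans hab, hx.2.trans (pow_le_pow_left₀ hx.1 hab 2)⟩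

theorem NL.self (h : Trans n B τ) (x : M) : NL B x (Real.sqrt (B x x)) :=
  ⟨Real.sqrt_nonneg _, by rw [Real.sq_sqrt (h.nonneg x)]⟩

theorem NL.sum (h : Trans n B τ) {s : Finset ℕ} {x : ℕ → M} {a : ℕ → ℝ}
    (hx : ∀ i ∈ s, NL B (x i) (a i)) : NL B (∑ i ∈ s, x i) (∑ i ∈ s, a i) := by
  classical
  induction s using Finset.induction_on with
  | empty => simp [NL]
  | insert i s hi ih =>
    rw [sum_insert hi, sum_insert hi]
    exact NL.add h (hx i (mem_insert_self i s)) (ih fun k hk => hx k (mem_insert_of_mem hk))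

theorem iso (h : Trans n B τ) {i j : ℕ} (hi : i < n) (hj : j < n) (hij : i ≠ j) (x y : M) :
    B (τ i j x) (τ i j y) = B x y := by
  rw [h.adj i j _ _ hi hj hij, h.inv i j _ hi hj hij]

theorem NL.tau (h : Trans n B τ) {i j : ℕ} (hi : i < n) (hj : j < n) (hij : i ≠ j) {x : M} {a : ℝ}
    (hx : NL B x a) : NL B (τ i j x) a :=
  ⟨hx.1, by rw [iso h hi hj hij]; exact hx.2⟩

theorem NL.am (h : Trans n B τ) {i j : ℕ} (hi : i < n) (hj : j < n) (hij : i ≠ j) {x : M} {a : ℝ}
    (hx : NL B x a) : NL B (Am τ i j x) a := by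
  have := (NL.sub h hx (NL.tau h hi hj hij hx)).smul (c := 1 / 2) (by norm_num)
  refine this.mono (by linarith)

/-- (τ i j)(τ i k) = (τ j k)(τ i j) -/
theorem slide' (h : Trans n B τ) {i j k : ℕ} (x : M) (hi : i < n) (hj : j < n) (hk : k < n)
    (hij : i ≠ j) (hjk : j ≠ k) (hik : i ≠ k) : τ i j (τ i k x) = τ j k (τ i j x) := by
  rw [h.comm i j _ hi hj hij, h.slide j i k x hj hi hk hij.symm hik hjk, h.comm i j x hi hj hij]

/-- invariance of `US` -/
theorem US_inv (h : Trans n B τ) (X : M) : ∀ j, j ≤ n → ∀ i k, i < j → k < j → i ≠ k →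
    τ i k (US τ X j) = US τ X j := by
  intro j
  induction j with
  | zero => intro _ i k hi; omega
  | succ j ih =>
    intro hj
    have hj' : j < n := hj
    have ih' := ih (by omega)
    -- first case: both legs below `j`
    have case1 : ∀ i k, i < j → k < j → i ≠ k → τ i k (US τ X (j + 1)) = US τ X (j + 1) := by
      intro i k hi hk hik
      rw [US, map_smul, map_add, map_sum, ih' i k hi hk hik]
      congr 2
      -- the sum is permuted
      have hterm : ∀ l ∈ range j, τ i k (τ l j (US τ X j)) =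
          τ (Equiv.swap i k l) j (US τ X j) := by
        intro l hl
        have hl' : l < j := mem_range.1 hl
        by_cases h1 : l = i
        · subst h1
          rw [Equiv.swap_apply_left, slide' h (US τ X j) (by omega) (by omega) hj' hik (by omega) (by omega),
            ih' l k hi hk hik]
        · by_cases h2 : l = k
          · subst h2
            rw [Equiv.swap_apply_right, h.slide i l j (US τ X j) (by omega) (by omega) hj' hik (by omega)
              (by omega), ih' i l hi hk hik]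
          · rw [Equiv.swap_apply_of_ne_of_ne h1 h2,
              h.disj i k l j (US τ X j) (by omega) (by omega) (by omega) hj' hik (Ne.symm h1)
                (by omega) (Ne.symm h2) (by omega) (by omega), ih' i k hi hk hik]
      rw [sum_congr rfl hterm]
      refine Finset.sum_bij' (fun l _ => Equiv.swap i k l) (fun l _ => Equiv.swap i k l) ?_ ?_ ?_ ?_ ?_
      · intro l hl
        rw [mem_range] at hl ⊢
        by_cases h1 : l = i
        · rw [h1, Equiv.swap_apply_left]; exact hk
        · by_cases h2 : l = k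
          · rw [h2, Equiv.swap_apply_right]; exact hi
          · rw [Equiv.swap_apply_of_ne_of_ne h1 h2]; exact hl
      · intro l hl
        rw [mem_range] at hl ⊢
        by_cases h1 : l = i
        · rw [h1, Equiv.swap_apply_left]; exact hk
        · by_cases h2 : l = k
          · rw [h2, Equiv.swap_apply_right]; exact hi
          · rw [Equiv.swap_apply_of_ne_of_ne h1 h2]; exact hl
      · intro l _; simp
      · intro l _; simp
      · intro l _; rfl
    -- second case
    have case2 : ∀ i, i < j → τ i j (US τ X (j + 1)) = US τ X (j + 1) := by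
      intro i hi
      rw [US, map_smul, map_add, map_sum]
      congr 1
      have hterm : ∀ l ∈ (range j).erase i, τ i j (τ l j (US τ X j)) = τ l j (US τ X j) := by
        intro l hl
        have hl' : l < j := mem_range.1 (mem_of_mem_erase hl)
        have hli : l ≠ i := ne_of_mem_erase hl
        rw [h.comm i j _ (by omega) hj' (by omega), ← slide' h (US τ X j) (by omega : l < n) hj'
          (by omega : i < n) (by omega) (by omega) hli, ih' l i hl' hi hli]
      rw [← add_sum_erase _ _ (mem_range.2 hi), ← add_sum_erase (range j)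
        (fun l => τ l j (US τ X j)) (mem_range.2 hi), sum_congr rfl hterm,
        h.inv i j _ (by omega) hj' (by omega)]
      abel
    intro i k hi hk hik
    by_cases h1 : i = j
    · subst h1
      rw [h.comm _ _ _ hj' (by omega) hik]
      exact case2 k (by omega)
    · by_cases h2 : k = j
      · subst h2; exact case2 i (by omega)
      · exact case1 i k (by omega) (by omega) hik

/-- `U_{j+1}` is the projection of `U_j` -/
theorem US_proj1 (h : Trans n B τ) (X : M) {j : ℕ} (hj : j < n) :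
    B (US τ X (j + 1)) (US τ X (j + 1)) = B (US τ X (j + 1)) (US τ X j) := by
  have hne : ((j : ℝ) + 1) ≠ 0 := by positivity
  have hs := congrArg (B (US τ X (j + 1))) (US_succ (τ := τ) X j)
  rw [map_smul, map_add, map_sum, smul_eq_mul] at hs
  have hterm : ∀ i ∈ range j, B (US τ X (j + 1)) (τ i j (US τ X j)) =
      B (US τ X (j + 1)) (US τ X j) := by
    intro i hi
    have hi' : i < j := mem_range.1 hi
    rw [← h.adj i j _ _ (by omega) hj (by omega),
      US_inv h X (j + 1) hj i j (by omega) (by omega) (by omega)]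
  rw [sum_congr rfl hterm, sum_const, card_range, nsmul_eq_mul] at hs
  have : ((j : ℝ) + 1) * (B (US τ X (j + 1)) (US τ X (j + 1)) -
      B (US τ X (j + 1)) (US τ X j)) = 0 := by linarith
  rcases mul_eq_zero.1 this with h0 | h0
  · exact absurd h0 hne
  · linarith

/-- `U_j` is the orthogonal projection of `X` -/
theorem US_proj (h : Trans n B τ) (X : M) : ∀ j, j ≤ n →
    ∀ W : M, (∀ i k, i < j → k < j → i ≠ k → τ i k W = W) →
    B (US τ X j) W = B X W := by
  intro j
  induction j with
  | zero => intro _ W _; rw [US_zero]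
  | succ j ih =>
    intro hj W hW
    have hj' : j < n := hj
    have hne : ((j : ℝ) + 1) ≠ 0 := by positivity
    have h1 := ih (by omega) W (fun i k hi hk hik => hW i k (by omega) (by omega) hik)
    have hs := congrArg (fun v => B v W) (US_succ (τ := τ) X j)
    simp only [map_smul, map_add, map_sum, smul_eq_mul, LinearMap.add_apply, LinearMap.smul_apply,
      LinearMap.sum_apply] at hs
    have hterm : ∀ i ∈ range j, B (τ i j (US τ X j)) W = B X W := by
      intro i hi
      have hi' : i < j := mem_range.1 hi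
      rw [h.adj i j _ _ (by omega) hj' (by omega), hW i j (by omega) (by omega) (by omega), h1]
    rw [sum_congr rfl hterm, sum_const, card_range, nsmul_eq_mul, h1] at hs
    have : ((j : ℝ) + 1) * (B (US τ X (j + 1)) W - B X W) = 0 := by linarith
    rcases mul_eq_zero.1 this with h0 | h0
    · exact absurd h0 hne
    · linarith

theorem US_proj_self (h : Trans n B τ) (X : M) {j : ℕ} (hj : j ≤ n) :
    B (US τ X j) (US τ X j) = B X (US τ X j) :=
  US_proj h X j hj _ (US_inv h X j hj)

/-- the norms decrease -/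
theorem US_norm_le (h : Trans n B τ) (X : M) {j : ℕ} (hj : j ≤ n) :
    B (US τ X j) (US τ X j) ≤ B X X := by
  have h1 := US_proj_self h X hj
  have h2 := cs h X (US τ X j)
  have h3 := h.nonneg (US τ X j)
  have h4 := h.nonneg X
  rw [← h1] at h2
  by_contra hc
  push Not at hc
  have h5 : 0 < B (US τ X j) (US τ X j) := lt_of_le_of_lt h4 hc
  nlinarith

/-- transport of a low transposition through `τ i l` -/
theorem conj_low (h : Trans n B τ) {j a b i l : ℕ} (x : M) (ha : a < j) (hb : b < j) (hab : a ≠ b)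
    (hi : i < j) (hl : j ≤ l) (hln : l < n) :
    τ a b (τ i l x) = τ (Equiv.swap a b i) l (τ a b x) := by
  by_cases h1 : i = a
  · subst h1
    rw [Equiv.swap_apply_left, slide' h x (by omega) (by omega) hln hab (by omega) (by omega)]
  · by_cases h2 : i = b
    · subst h2
      rw [Equiv.swap_apply_right, h.slide a i l x (by omega) (by omega) hln hab (by omega) (by omega)]
    · rw [Equiv.swap_apply_of_ne_of_ne h1 h2,
        h.disj a b i l x (by omega) (by omega) (by omega) hln hab (Ne.symm h1)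
          (by omega) (Ne.symm h2) (by omega) (by omega)]

theorem Am_adj (h : Trans n B τ) {i j : ℕ} (hi : i < n) (hj : j < n) (hij : i ≠ j) (x y : M) :
    B (Am τ i j x) y = B x (Am τ i j y) := by
  simp only [Am, map_smul, map_sub, LinearMap.smul_apply, LinearMap.sub_apply, smul_eq_mul,
    h.adj i j x y hi hj hij]

theorem Am_idem (h : Trans n B τ) {i j : ℕ} (hi : i < n) (hj : j < n) (hij : i ≠ j) (x : M) :
    Am τ i j (Am τ i j x) = Am τ i j x := by
  simp only [Am, map_smul, map_sub, h.inv i j x hi hj hij]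
  module

theorem tau_eq (τ : ℕ → ℕ → M →ₗ[ℝ] M) (i j : ℕ) (x : M) :
    τ i j x = x - (2 : ℝ) • Am τ i j x := by
  simp only [Am]; module

/-- the four numbers of the identity -/
theorem ident (h : Trans n B τ) (X : M) {j : ℕ} (hj1 : 1 ≤ j) (hj : j + 1 < n) :
    ((j : ℝ) + 1) * ((j : ℝ) * B (US τ X j) (US τ X j)
      - 2 * ((j : ℝ) + 1) * B (US τ X (j + 1)) (US τ X (j + 1))
      + ((j : ℝ) + 2) * B (US τ X (j + 2)) (US τ X (j + 2)))
    = 4 * (j : ℝ) * ((j : ℝ) - 1) * B (Am τ 0 j (Am τ 1 (j + 1) (US τ X j)))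
          (Am τ 0 j (Am τ 1 (j + 1) (US τ X j)))
      - 4 * (j : ℝ) * ((j : ℝ) + 1) * B (τ 0 j (US τ X j)) (Am τ j (j + 1) (US τ X j))
      + 4 * (j : ℝ) ^ 2 * B (τ 0 j (Am τ j (j + 1) (US τ X j))) (Am τ j (j + 1) (US τ X j))
      - 2 * B (Am τ j (j + 1) (US τ X j)) (Am τ j (j + 1) (US τ X j)) := by
  set U := US τ X j with hU
  set E := Am τ j (j + 1) U with hE
  have hinv := US_inv h X j (by omega)
  rw [← hU] at hinv
  -- numbers
  set ya := B (τ 0 j U) U with hya
  set yb := B (τ 0 (j + 1) U) U with hyb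
  set c := B (τ 0 j U) (τ j (j + 1) U) with hc
  set d := B (τ 1 (j + 1) (τ 0 j U)) U with hd
  -- general principle
  have gp : ∀ i l W, i < j → j ≤ l → l < n → (∀ k, k < j → k ≠ 0 → τ 0 k W = W) →
      B (τ i l U) W = B (τ 0 l U) W := by
    intro i l W hi hl hln hW
    by_cases h0 : i = 0
    · rw [h0]
    · have h1 := conj_low h (j := j) (a := 0) (b := i) (i := 0) (l := l) U (by omega) hi (Ne.symm h0)
        (by omega) hl hln
      rw [Equiv.swap_apply_left, hinv 0 i (by omega) hi (Ne.symm h0)] at h1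
      rw [← h1, h.adj 0 i _ _ (by omega) (by omega) (Ne.symm h0), hW i hi h0]
  have hWU : ∀ k, k < j → k ≠ 0 → τ 0 k U = U := fun k hk hk0 => hinv 0 k (by omega) hk (Ne.symm hk0)
  have hWT : ∀ k, k < j → k ≠ 0 → τ 0 k (τ j (j + 1) U) = τ j (j + 1) U := by
    intro k hk hk0
    rw [h.disj 0 k j (j + 1) U (by omega) (by omega) (by omega) (by omega) (by omega) (by omega)
      (by omega) (by omega) (by omega) (by omega), hWU k hk hk0]
  have hya' : ∀ i, i < j → B (τ i j U) U = ya := fun i hi => gp i j U hi le_rfl (by omega) hWU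
  have hyb' : ∀ i, i < j → B (τ i (j + 1) U) U = yb :=
    fun i hi => gp i (j + 1) U hi (by omega) (by omega) hWU
  have hc' : ∀ i, i < j → B (τ i j U) (τ j (j + 1) U) = c :=
    fun i hi => gp i j _ hi le_rfl (by omega) hWT
  -- the double term
  have hF : ∀ a b i i', a < j → b < j → a ≠ b → i < j → i' < j → i ≠ i' →
      B (τ i' (j + 1) (τ i j U)) U =
        B (τ (Equiv.swap a b i') (j + 1) (τ (Equiv.swap a b i) j U)) U := by
    intro a b i i' ha hb hab hi hi' _
    have h1 := conj_low h (j := j) (a := a) (b := b) (i := i') (l := j + 1) (τ i j U) ha hb hab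
      hi' (by omega) (by omega)
    rw [conj_low h (j := j) (a := a) (b := b) (i := i) (l := j) U ha hb hab hi le_rfl (by omega),
      hinv a b ha hb hab] at h1
    rw [← h1, h.adj a b _ _ (by omega) (by omega) hab, hinv a b ha hb hab]
  have hd' : ∀ i i', i < j → i' < j → i ≠ i' → B (τ i' (j + 1) (τ i j U)) U = d := by
    -- first move i to 0
    have step2 : ∀ i', i' < j → i' ≠ 0 → B (τ i' (j + 1) (τ 0 j U)) U = d := by
      intro i' hi' h0
      by_cases h1 : i' = 1
      · rw [h1]
      · have := hF 1 i' 0 i' (by omega) hi' (Ne.symm h1) (by omega) hi' (Ne.symm h0)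
        rw [Equiv.swap_apply_right, Equiv.swap_apply_of_ne_of_ne (by omega) (Ne.symm h0)] at this
        exact this
    intro i i' hi hi' hii
    by_cases h0 : i = 0
    · subst h0; exact step2 i' hi' (Ne.symm hii)
    · have h1 := hF 0 i i i' (by omega) hi (Ne.symm h0) hi hi' hii
      rw [Equiv.swap_apply_right] at h1
      rw [h1]
      by_cases h2 : i' = 0
      · subst h2
        rw [Equiv.swap_apply_left]
        exact step2 i hi h0
      · rw [Equiv.swap_apply_of_ne_of_ne h2 (Ne.symm hii)]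
        exact step2 i' hi' h2
  -- Z_{j+1}
  have hZ1 : ((j : ℝ) + 1) * B (US τ X (j + 1)) (US τ X (j + 1)) = B U U + j * ya := by
    rw [US_proj1 h X (by omega)]
    have hs := congrArg (fun v => B v U) (US_succ (τ := τ) X j)
    simp only [map_smul, map_add, map_sum, smul_eq_mul, LinearMap.add_apply, LinearMap.smul_apply,
      LinearMap.sum_apply] at hs
    rw [← hU] at hs ⊢
    rw [hs, sum_congr rfl (fun i hi => hya' i (mem_range.1 hi)), sum_const, card_range, nsmul_eq_mul]
  -- Z_{j+2}
  set V := US τ X (j + 1) with hV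
  have hVinv := US_inv h X (j + 1) (by omega)
  rw [← hV] at hVinv
  set y' := B (τ j (j + 1) V) V with hy'
  have hZ2 : ((j : ℝ) + 2) * B (US τ X (j + 2)) (US τ X (j + 2)) = B V V + (j + 1) * y' := by
    rw [US_proj1 h X (j := j + 1) hj]
    have hs := congrArg (fun v => B v V) (US_succ (τ := τ) X (j + 1))
    simp only [map_smul, map_add, map_sum, smul_eq_mul, LinearMap.add_apply, LinearMap.smul_apply,
      LinearMap.sum_apply] at hs
    rw [← hV] at hs ⊢
    have hterm : ∀ i ∈ range (j + 1), B (τ i (j + 1) V) V = y' := by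
      intro i hi
      have hi' : i < j + 1 := mem_range.1 hi
      by_cases h0 : i = j
      · rw [h0]
      · have h1 := conj_low h (j := j + 1) (a := i) (b := j) (i := j) (l := j + 1) V hi' (by omega) h0
          (by omega) le_rfl hj
        rw [Equiv.swap_apply_right, hVinv i j hi' (by omega) h0] at h1
        rw [← h1, h.adj i j _ _ (by omega) (by omega) h0, hVinv i j hi' (by omega) h0]
    rw [sum_congr rfl hterm, sum_const, card_range, nsmul_eq_mul] at hs
    push_cast at hs
    have e1 : (j : ℝ) + 1 + 1 = j + 2 := by ring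
    rw [e1] at hs
    exact hs
  have hy2 : ((j : ℝ) + 1) ^ 2 * y' = B (τ j (j + 1) U) U + 2 * j * c + j * yb
      + j * (j - 1) * d := by
    have hs := US_succ (τ := τ) X j
    rw [← hV, ← hU] at hs
    have h1 : ((j : ℝ) + 1) ^ 2 * y' =
        B (τ j (j + 1) (((j : ℝ) + 1) • V)) (((j : ℝ) + 1) • V) := by
      simp only [map_smul, LinearMap.smul_apply, smul_eq_mul]; ring
    rw [h1, hs]
    simp only [map_add, map_sum, LinearMap.add_apply, LinearMap.sum_apply]
    have t1 : ∑ i ∈ range j, B (τ j (j + 1) (τ i j U)) U = j * c := by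
      rw [sum_congr rfl (g := fun _ => c), sum_const, card_range, nsmul_eq_mul]
      intro i hi
      rw [h.adj j (j + 1) _ _ (by omega) hj (by omega), hc' i (mem_range.1 hi)]
    have t2 : ∑ i ∈ range j, B (τ j (j + 1) U) (τ i j U) = j * c := by
      rw [sum_congr rfl (g := fun _ => c), sum_const, card_range, nsmul_eq_mul]
      intro i hi
      rw [h.symm, hc' i (mem_range.1 hi)]
    have t3 : ∀ i ∈ range j, ∑ i' ∈ range j, B (τ j (j + 1) (τ i' j U)) (τ i j U)
        = yb + (j - 1) * d := by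
      intro i hi
      have hi1 : i < j := mem_range.1 hi
      rw [← add_sum_erase _ _ hi]
      have d1 : B (τ j (j + 1) (τ i j U)) (τ i j U) = yb := by
        rw [← h.adj i j _ _ (by omega) (by omega) (by omega),
          h.slide i j (j + 1) (τ i j U) (by omega) (by omega) (by omega) (by omega) (by omega)
            (by omega), h.inv i j U (by omega) (by omega) (by omega), hyb' i hi1]
      have d2 : ∀ i' ∈ (range j).erase i, B (τ j (j + 1) (τ i' j U)) (τ i j U) = d := by
        intro i' hi'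
        have hi2 : i' < j := mem_range.1 (mem_of_mem_erase hi')
        have hne : i' ≠ i := ne_of_mem_erase hi'
        rw [← h.adj i j _ _ (by omega) (by omega) (by omega),
          h.slide i j (j + 1) (τ i' j U) (by omega) (by omega) (by omega) (by omega) (by omega)
            (by omega)]
        have e1 : τ i j (τ i' j U) = τ i' j U := by
          rw [h.comm i j _ (by omega) (by omega) (by omega), ← slide' h U (by omega : i' < n)
            (by omega : j < n) (by omega : i < n) (by omega) (by omega) hne, hinv i' i hi2 hi1 hne]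
        rw [e1, hd' i' i hi2 hi1 hne]
      rw [d1, sum_congr rfl d2, sum_const, card_erase_of_mem hi, card_range, nsmul_eq_mul,
        Nat.cast_sub hj1, Nat.cast_one]
    rw [t1, sum_add_distrib, t2, sum_congr rfl t3, sum_const, card_range, nsmul_eq_mul]
    ring
  -- relations of the numbers
  have hEU : τ j (j + 1) U = U - (2 : ℝ) • E := tau_eq τ j (j + 1) U
  have hBEU : B E U = B E E := by
    have h1 := Am_adj h (i := j) (j := j + 1) (by omega) hj (by omega) E U
    rw [hE, Am_idem h (by omega) hj (by omega), ← hE] at h1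
    exact h1
  have hx : B (τ j (j + 1) U) U = B U U - 2 * B E E := by
    rw [hEU]
    simp only [map_sub, map_smul, LinearMap.sub_apply, LinearMap.smul_apply, smul_eq_mul, hBEU]
  have hc2 : c = ya - 2 * B (τ 0 j U) E := by
    rw [hc, hEU]
    simp only [map_sub, map_smul, smul_eq_mul, hya]
  have hyb2 : yb = ya - 4 * B (τ 0 j U) E + 4 * B (τ 0 j E) E := by
    have h1 : τ 0 (j + 1) U = τ j (j + 1) (τ 0 j (τ j (j + 1) U)) := by
      have h2 := h.slide j (j + 1) 0 (τ j (j + 1) U) (by omega) hj (by omega) (by omega) (by omega)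
        (by omega)
      rw [h.comm j (j + 1) (τ j (j + 1) U) (by omega) hj (by omega)] at h2
      have h3 := slide' h (i := j + 1) (j := j) (k := 0) U hj (by omega) (by omega) (by omega)
        (by omega) (by omega)
      -- (j+1 j)(j+1 0) = (j 0)(j+1 j)
      rw [h.comm j (j + 1) _ (by omega) hj (by omega), h.comm 0 j _ (by omega) (by omega) (by omega),
        h.comm j (j + 1) U (by omega) hj (by omega), ← h3, h.inv (j + 1) j _ hj (by omega) (by omega),
        h.comm (j + 1) 0 _ hj (by omega) (by omega)]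
    rw [hyb, h1, h.adj j (j + 1) _ _ (by omega) hj (by omega), hEU]
    simp only [map_sub, map_smul, LinearMap.sub_apply, LinearMap.smul_apply, smul_eq_mul]
    have h4 : B (τ 0 j E) U = B (τ 0 j U) E := by
      rw [h.adj 0 j E U (by omega) (by omega) (by omega), h.symm]
    rw [h4, hya]
    ring
  -- the D term, only needed for `2 ≤ j`
  have hD : 2 ≤ j → 4 * B (Am τ 0 j (Am τ 1 (j + 1) U)) (Am τ 0 j (Am τ 1 (j + 1) U)) =
      B U U - ya - yb + d := by
    intro hj2
    have hcomm : ∀ x, Am τ 0 j (Am τ 1 (j + 1) x) = Am τ 1 (j + 1) (Am τ 0 j x) := by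
      intro x
      simp only [Am, map_sub, map_smul]
      rw [h.disj 0 j 1 (j + 1) x (by omega) (by omega) (by omega) (by omega) (by omega) (by omega)
        (by omega) (by omega) (by omega) (by omega)]
      module
    have h1 : B (Am τ 0 j (Am τ 1 (j + 1) U)) (Am τ 0 j (Am τ 1 (j + 1) U)) =
        B (Am τ 0 j (Am τ 1 (j + 1) U)) U := by
      rw [← Am_adj h (by omega) (by omega) (by omega), Am_idem h (by omega) (by omega) (by omega),
        hcomm, ← Am_adj h (by omega) (by omega) (by omega),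
        Am_idem h (by omega) (by omega) (by omega)]
    have hy1 : B (τ 1 (j + 1) U) U = yb := hyb' 1 (by omega)
    have hd1 : B (τ 0 j (τ 1 (j + 1) U)) U = d := by
      rw [h.disj 0 j 1 (j + 1) U (by omega) (by omega) (by omega) (by omega) (by omega) (by omega)
        (by omega) (by omega) (by omega) (by omega), hd]
    rw [h1]
    simp only [Am, map_sub, map_smul, LinearMap.sub_apply, LinearMap.smul_apply, smul_eq_mul,
      hy1, hd1, ← hya]
    ring
  -- conclusion
  have hfin : ((j : ℝ) + 1) * (((j : ℝ) + 2) * B (US τ X (j + 2)) (US τ X (j + 2))) =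
      B U U + j * ya + (B U U - 2 * B E E) + 2 * j * c + j * yb + j * (j - 1) * d := by
    rw [hZ2]
    have : ((j : ℝ) + 1) * (B V V + (j + 1) * y') = (j + 1) * B V V + (j + 1) ^ 2 * y' := by ring
    rw [this, hy2, hZ1, hx]
    ring
  have hj0 : (j : ℝ) * (j - 1) * d = j * (j - 1) *
      (4 * B (Am τ 0 j (Am τ 1 (j + 1) U)) (Am τ 0 j (Am τ 1 (j + 1) U)) - B U U + ya + yb) := by
    rcases Nat.lt_or_ge j 2 with h2 | h2
    · have : j = 1 := by omega
      subst this
      norm_num
    · rw [hD h2]; ring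
  have e1 : ((j : ℝ) + 1) * (j * B U U - 2 * (j + 1) * B V V
      + (j + 2) * B (US τ X (j + 2)) (US τ X (j + 2))) =
      (j + 1) * j * B U U - 2 * (j + 1) * ((j + 1) * B V V) +
      (j + 1) * ((j + 2) * B (US τ X (j + 2)) (US τ X (j + 2))) := by ring
  rw [e1, hfin, hZ1, hj0, hyb2, hc2]
  ring

theorem Am_add (i j : ℕ) (x y : M) : Am τ i j (x + y) = Am τ i j x + Am τ i j y := by
  simp only [Am, map_add]; module

theorem Am_sub (i j : ℕ) (x y : M) : Am τ i j (x - y) = Am τ i j x - Am τ i j y := by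
  simp only [Am, map_sub]; module

theorem Am_smul (i j : ℕ) (c : ℝ) (x : M) : Am τ i j (c • x) = c • Am τ i j x := by
  simp only [Am, map_smul]; module

theorem Am_sum (i j : ℕ) (s : Finset ℕ) (x : ℕ → M) :
    Am τ i j (∑ k ∈ s, x k) = ∑ k ∈ s, Am τ i j (x k) := by
  simp only [Am, map_sum, ← smul_sum, sum_sub_distrib]

/-- outer antisymmetrisers commute with `US` -/
theorem US_Am (h : Trans n B τ) {a c : ℕ} (ha : a < n) (hc : c < n) (hac : a ≠ c) :
    ∀ (j : ℕ), j ≤ a → j ≤ c → ∀ (X : M), US τ (Am τ a c X) j = Am τ a c (US τ X j) := by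
  intro j
  induction j with
  | zero => intro _ _ X; rfl
  | succ j ih =>
    intro hja hjc X
    have h1 := ih (by omega) (by omega) X
    rw [US, US, h1, Am_smul, Am_add, Am_sum]
    have hterm : ∀ i ∈ range j, τ i j (Am τ a c (US τ X j)) = Am τ a c (τ i j (US τ X j)) := by
      intro i hi
      have hi' : i < j := mem_range.1 hi
      simp only [Am, map_smul, map_sub]
      rw [h.disj i j a c (US τ X j) (by omega) (by omega) ha hc (by omega) (by omega) (by omega)
        (by omega) (by omega) hac]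
    rw [sum_congr rfl hterm]

/-- disjoint antisymmetriser and transposition commute -/
theorem Am_tau (h : Trans n B τ) {i j a c : ℕ} (x : M) (hi : i < n) (hj : j < n) (ha : a < n)
    (hc : c < n) (hij : i ≠ j) (hac : a ≠ c) (hia : i ≠ a) (hic : i ≠ c) (hja : j ≠ a)
    (hjc : j ≠ c) : Am τ a c (τ i j x) = τ i j (Am τ a c x) := by
  simp only [Am, map_smul, map_sub]
  rw [h.disj i j a c x hi hj ha hc hij hia hic hja hjc hac]

theorem Am_Am (h : Trans n B τ) {i j a c : ℕ} (x : M) (hi : i < n) (hj : j < n) (ha : a < n)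
    (hc : c < n) (hij : i ≠ j) (hac : a ≠ c) (hia : i ≠ a) (hic : i ≠ c) (hja : j ≠ a)
    (hjc : j ≠ c) : Am τ a c (Am τ i j x) = Am τ i j (Am τ a c x) := by
  have h1 : Am τ i j x = (1 / 2 : ℝ) • (x - τ i j x) := rfl
  have h2 : Am τ i j (Am τ a c x) = (1 / 2 : ℝ) • (Am τ a c x - τ i j (Am τ a c x)) := rfl
  rw [h1, h2, Am_smul, Am_sub, Am_tau h x hi hj ha hc hij hac hia hic hja hjc]

/-- `Am a c (τ a b x) = τ a b (Am b c x)` -/
theorem Am_slide (h : Trans n B τ) {a b c : ℕ} (x : M) (ha : a < n) (hb : b < n) (hc : c < n)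
    (hab : a ≠ b) (hbc : b ≠ c) (hac : a ≠ c) : Am τ a c (τ a b x) = τ a b (Am τ b c x) := by
  simp only [Am, map_smul, map_sub]
  rw [h.slide a b c x ha hb hc hab hbc hac]

/-- distance-two antisymmetriser -/
theorem NL.am2 (h : Trans n B τ) {a b c : ℕ} {x : M} {e e' : ℝ} (ha : a < n) (hb : b < n)
    (hc : c < n) (hab : a ≠ b) (hbc : b ≠ c) (hac : a ≠ c) (he : NL B (Am τ a b x) e)
    (he' : NL B (Am τ b c x) e') : NL B (Am τ a c x) (2 * e + e') := by
  -- τ a c x = τ a b (τ b c (τ a b x))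
  have h1 : τ a c x = τ a b (τ b c (τ a b x)) := by
    rw [h.slide a b c (τ a b x) ha hb hc hab hbc hac, h.inv a b x ha hb hab]
  have h2 : τ a b x = x - (2 : ℝ) • Am τ a b x := tau_eq τ a b x
  have h3 : τ b c x = x - (2 : ℝ) • Am τ b c x := tau_eq τ b c x
  have h4 : Am τ a c x = Am τ a b x + τ a b (Am τ b c x) + τ a b (τ b c (Am τ a b x)) := by
    have h5 : τ a c x = x - (2 : ℝ) • Am τ a b x - (2 : ℝ) • τ a b (Am τ b c x)
        - (2 : ℝ) • τ a b (τ b c (Am τ a b x)) := by
      rw [h1]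
      conv_lhs => rw [h2]
      rw [map_sub, map_smul, h3, map_sub, map_sub, map_smul, map_smul, h2]
    have h6 : Am τ a c x = (1 / 2 : ℝ) • (x - τ a c x) := rfl
    rw [h6, h5]
    module
  rw [h4]
  have := NL.add h (NL.add h he (NL.tau h ha hb hab he'))
    (NL.tau h ha hb hab (NL.tau h hb hc hbc he))
  exact this.mono (by linarith)

/-- recursion for the double antisymmetriser -/
theorem D_step (h : Trans n B τ) (X : M) {j : ℕ} (hj2 : 2 ≤ j) (hj : j + 2 < n) {d e e' : ℝ}
    (hd : NL B (Am τ 0 j (Am τ 1 (j + 1) (US τ X j))) d)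
    (he : NL B (Am τ j (j + 1) (US τ X j)) e)
    (he' : NL B (Am τ (j + 1) (j + 2) (US τ X j)) e') :
    NL B (Am τ 0 (j + 1) (Am τ 1 (j + 2) (US τ X (j + 1))))
      (((j : ℝ) - 1) / ((j : ℝ) + 1) * d + 2 * (e + e')) := by
  set U := US τ X j with hU
  have hjpos : (0 : ℝ) < (j : ℝ) + 1 := by positivity
  -- the main term
  have hA : NL B (Am τ 0 (j + 1) (Am τ 1 (j + 2) U)) (d + 2 * (e + e')) := by
    set Q : M → M := fun x => τ j (j + 1) (τ (j + 1) (j + 2) x) with hQ
    have hQconj : ∀ x, Am τ 0 (j + 1) (Am τ 1 (j + 2) (Q x)) =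
        Q (Am τ 0 j (Am τ 1 (j + 1) x)) := by
      intro x
      -- Am 1 (j+2) (τ j (j+1) (τ (j+1) (j+2) x))
      rw [hQ]
      simp only
      rw [Am_tau h _ (by omega) (by omega) (by omega) (by omega) (by omega) (by omega) (by omega)
        (by omega) (by omega) (by omega)]
      have e1 : Am τ 1 (j + 2) (τ (j + 1) (j + 2) x) = τ (j + 1) (j + 2) (Am τ 1 (j + 1) x) := by
        have h1 := Am_slide h (a := j + 2) (b := j + 1) (c := 1) x (by omega) (by omega) (by omega)
          (by omega) (by omega) (by omega)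
        have h2 : ∀ y, Am τ (j + 2) 1 y = Am τ 1 (j + 2) y := fun y => by
          simp only [Am]; rw [h.comm (j + 2) 1 y (by omega) (by omega) (by omega)]
        have h3 : ∀ y, Am τ (j + 1) 1 y = Am τ 1 (j + 1) y := fun y => by
          simp only [Am]; rw [h.comm (j + 1) 1 y (by omega) (by omega) (by omega)]
        rw [h2, h3, h.comm (j + 2) (j + 1) x (by omega) (by omega) (by omega),
          h.comm (j + 2) (j + 1) _ (by omega) (by omega) (by omega)] at h1
        exact h1
      rw [e1]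
      have e2 : ∀ y, Am τ 0 (j + 1) (τ j (j + 1) y) = τ j (j + 1) (Am τ 0 j y) := by
        intro y
        have h1 := Am_slide h (a := j + 1) (b := j) (c := 0) y (by omega) (by omega) (by omega)
          (by omega) (by omega) (by omega)
        have h2 : ∀ y, Am τ (j + 1) 0 y = Am τ 0 (j + 1) y := fun y => by
          simp only [Am]; rw [h.comm (j + 1) 0 y (by omega) (by omega) (by omega)]
        have h3 : ∀ y, Am τ j 0 y = Am τ 0 j y := fun y => by
          simp only [Am]; rw [h.comm j 0 y (by omega) (by omega) (by omega)]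
        rw [h2, h3, h.comm (j + 1) j y (by omega) (by omega) (by omega),
          h.comm (j + 1) j _ (by omega) (by omega) (by omega)] at h1
        exact h1
      rw [e2, Am_tau h _ (by omega) (by omega) (by omega) (by omega) (by omega) (by omega) (by omega)
        (by omega) (by omega) (by omega)]
    set x := τ (j + 1) (j + 2) (τ j (j + 1) U) with hx
    have hQx : Q x = U := by
      rw [hQ, hx]
      simp only
      rw [h.inv (j + 1) (j + 2) _ (by omega) (by omega) (by omega),
        h.inv j (j + 1) _ (by omega) (by omega) (by omega)]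
    have hxU : x = U + (-(2 : ℝ)) • (Am τ (j + 1) (j + 2) U
        + τ (j + 1) (j + 2) (Am τ j (j + 1) U)) := by
      rw [hx, tau_eq τ j (j + 1) U, map_sub, map_smul, tau_eq τ (j + 1) (j + 2) U]
      module
    have hR := NL.add h he' (NL.tau h (i := j + 1) (j := j + 2) (by omega) (by omega) (by omega) he)
    have hR2 := (hR.smul (c := 2) (by norm_num)).neg
    have hR3 : NL B ((-(2 : ℝ)) • (Am τ (j + 1) (j + 2) U
        + τ (j + 1) (j + 2) (Am τ j (j + 1) U))) (2 * (e' + e)) := by
      rw [neg_smul]; exact hR2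
    have h5 : Am τ 0 (j + 1) (Am τ 1 (j + 2) U) = Q (Am τ 0 j (Am τ 1 (j + 1) x)) := by
      rw [← hQconj, hQx]
    rw [h5, hQ]
    simp only
    refine NL.tau h (by omega) (by omega) (by omega) (NL.tau h (by omega) (by omega) (by omega) ?_)
    rw [hxU, Am_add, Am_add]
    refine (NL.add h hd (NL.am h (by omega) (by omega) (by omega)
      (NL.am h (by omega) (by omega) (by omega) hR3))).mono (by linarith)
  -- i = 0
  have h0 : NL B (Am τ 0 (j + 1) (Am τ 1 (j + 2) (τ 0 j U))) e := by
    rw [Am_tau h U (i := 0) (j := j) (a := 1) (c := j + 2) (by omega) (by omega) (by omega)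
      (by omega) (by omega) (by omega) (by omega) (by omega) (by omega) (by omega),
      Am_slide h _ (by omega) (by omega) (by omega) (by omega) (by omega) (by omega),
      Am_Am h U (i := 1) (j := j + 2) (a := j) (c := j + 1) (by omega) (by omega) (by omega)
      (by omega) (by omega) (by omega) (by omega) (by omega) (by omega) (by omega)]
    exact NL.tau h (by omega) (by omega) (by omega) (NL.am h (by omega) (by omega) (by omega) he)
  -- i = 1
  have h1 : NL B (Am τ 0 (j + 1) (Am τ 1 (j + 2) (τ 1 j U))) (2 * e + e') := by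
    rw [Am_slide h U (a := 1) (b := j) (c := j + 2) (by omega) (by omega) (by omega) (by omega)
      (by omega) (by omega)]
    refine NL.am h (by omega) (by omega) (by omega) (NL.tau h (by omega) (by omega) (by omega) ?_)
    exact NL.am2 h (by omega) (by omega : j + 1 < n) (by omega) (by omega) (by omega) (by omega)
      he he'
  -- i ≥ 2
  have h2 : ∀ i, 2 ≤ i → i < j → NL B (Am τ 0 (j + 1) (Am τ 1 (j + 2) (τ i j U)))
      (d + 2 * (e + e')) := by
    intro i hi hij
    rw [Am_tau h U (i := i) (j := j) (a := 1) (c := j + 2) (by omega) (by omega) (by omega)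
      (by omega) (by omega) (by omega) (by omega) (by omega) (by omega) (by omega),
      Am_tau h _ (i := i) (j := j) (a := 0) (c := j + 1) (by omega) (by omega) (by omega)
      (by omega) (by omega) (by omega) (by omega) (by omega) (by omega) (by omega)]
    exact NL.tau h (by omega) (by omega) (by omega) hA
  -- sum up
  have hexp : Am τ 0 (j + 1) (Am τ 1 (j + 2) (US τ X (j + 1))) = ((j : ℝ) + 1)⁻¹ •
      (Am τ 0 (j + 1) (Am τ 1 (j + 2) U) +
        ∑ i ∈ range j, Am τ 0 (j + 1) (Am τ 1 (j + 2) (τ i j U))) := by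
    rw [US, ← hU, Am_smul, Am_smul, Am_add, Am_add, Am_sum, Am_sum]
  rw [hexp]
  set bd : ℕ → ℝ := fun i => if i = 0 then e else if i = 1 then 2 * e + e' else d + 2 * (e + e')
    with hbd
  have hsum := NL.sum h (s := range j) (x := fun i => Am τ 0 (j + 1) (Am τ 1 (j + 2) (τ i j U)))
    (a := bd) (by
      intro i hi
      have hi' : i < j := mem_range.1 hi
      simp only [hbd]
      by_cases hi0 : i = 0
      · subst hi0; simpa using h0
      · by_cases hi1 : i = 1
        · subst hi1; simpa using h1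
        · simp only [hi0, hi1, if_false]
          exact h2 i (by omega) hi')
  have hbsum : ∑ i ∈ range j, bd i = e + (2 * e + e') + ((j : ℝ) - 2) * (d + 2 * (e + e')) := by
    obtain ⟨m, rfl⟩ : ∃ m, j = m + 2 := ⟨j - 2, by omega⟩
    rw [sum_range_succ', sum_range_succ']
    have : ∀ i ∈ range m, bd (i + 1 + 1) = d + 2 * (e + e') := by
      intro i _; simp [hbd]
    rw [sum_congr rfl this, sum_const, card_range, nsmul_eq_mul]
    simp only [hbd]
    push_cast
    norm_num
    ring
  have hfin := (NL.add h hA hsum).smul (c := ((j : ℝ) + 1)⁻¹) (by positivity)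
  refine hfin.mono ?_
  rw [hbsum]
  have hde : 0 ≤ e := he.1
  have hde' : 0 ≤ e' := he'.1
  have e5 : ((j : ℝ) - 1) / ((j : ℝ) + 1) * d + 2 * (e + e') =
      ((j : ℝ) + 1)⁻¹ * (((j : ℝ) - 1) * d + 2 * (j + 1) * (e + e')) := by
    field_simp
  rw [e5]
  apply mul_le_mul_of_nonneg_left _ (by positivity)
  nlinarith

/-- base of the recursion -/
theorem D_base (h : Trans n B τ) (X : M) (hn : 3 < n) {e e' : ℝ}
    (he : NL B (Am τ 1 2 (US τ X 1)) e)
    (he' : NL B (Am τ 2 3 (US τ X 1)) e') :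
    NL B (Am τ 0 2 (Am τ 1 3 (US τ X 2))) (2 * (e + e')) := by
  rw [US_one] at he he'
  have hU2 : US τ X 2 = (1 / 2 : ℝ) • (X + τ 0 1 X) := by
    have : US τ X 2 = (((1 : ℕ) : ℝ) + 1)⁻¹ • (US τ X 1 + ∑ i ∈ range 1, τ i 1 (US τ X 1)) := rfl
    rw [this, US_one, sum_range_one]
    norm_num
  have hA : NL B (Am τ 0 2 (Am τ 1 3 X)) (2 * e + e') :=
    NL.am h (by omega) (by omega) (by omega)
      (NL.am2 h (by omega) (by omega : 2 < n) (by omega) (by omega) (by omega) (by omega) he he')
  have hB : NL B (Am τ 0 2 (Am τ 1 3 (τ 0 1 X))) e := by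
    have e1 : Am τ 1 3 (τ 0 1 X) = τ 0 1 (Am τ 0 3 X) := by
      rw [h.comm 0 1 X (by omega) (by omega) (by omega),
        Am_slide h X (a := 1) (b := 0) (c := 3) (by omega) (by omega) (by omega) (by omega)
          (by omega) (by omega), h.comm 1 0 _ (by omega) (by omega) (by omega)]
    rw [e1, Am_slide h _ (a := 0) (b := 1) (c := 2) (by omega) (by omega) (by omega) (by omega)
          (by omega) (by omega),
      Am_Am h X (i := 0) (j := 3) (a := 1) (c := 2) (by omega) (by omega) (by omega) (by omega)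
        (by omega) (by omega) (by omega) (by omega) (by omega) (by omega)]
    exact NL.tau h (by omega) (by omega) (by omega) (NL.am h (by omega) (by omega) (by omega) he)
  rw [hU2, Am_smul, Am_smul, Am_add, Am_add]
  refine ((NL.add h hA hB).smul (c := 1 / 2) (by norm_num)).mono ?_
  have := he.1
  have := he'.1
  linarith

/-- accumulated bound for the double antisymmetriser -/
theorem D_acc {b : ℕ} (h : Trans (b + 1) B τ) (X : M) (e e' : ℕ → ℝ)
    (he : ∀ j, 1 ≤ j → j < b → NL B (Am τ j (j + 1) (US τ X j)) (e j))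
    (he' : ∀ j, 1 ≤ j → j + 1 < b → NL B (Am τ (j + 1) (j + 2) (US τ X j)) (e' j)) :
    ∀ j, 2 ≤ j → j < b → NL B (Am τ 0 j (Am τ 1 (j + 1) (US τ X j)))
      (2 * (∑ i ∈ Ico 1 j, (i : ℝ) * ((i : ℝ) + 1) * (e i + e' i)) / ((j : ℝ) * ((j : ℝ) - 1))) := by
  intro j hj2
  induction j, hj2 using Nat.le_induction with
  | base =>
    intro hb
    have h1 := D_base h X (by omega) (he 1 le_rfl (by omega)) (he' 1 le_rfl (by omega))
    refine h1.mono (le_of_eq ?_)
    rw [Nat.Ico_succ_singleton]
    simp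
    ring
  | succ j hj ih =>
    intro hb
    have h1 := D_step h X hj (by omega) (ih (by omega)) (he j (by omega) (by omega))
      (he' j (by omega) (by omega))
    refine h1.mono (le_of_eq ?_)
    rw [sum_Ico_succ_top (by omega)]
    have hj0 : (j : ℝ) ≠ 0 := by
      have : (2 : ℝ) ≤ j := by exact_mod_cast hj
      linarith
    have hj1 : (j : ℝ) - 1 ≠ 0 := by
      have : (2 : ℝ) ≤ j := by exact_mod_cast hj
      linarith
    have hj3 : (j : ℝ) + 1 ≠ 0 := by positivity
    push_cast
    have e1 : (j : ℝ) + 1 - 1 = j := by ring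
    rw [e1]
    field_simp

/-- SYM LEMMA -/
theorem sym_main {b : ℕ} (hb : 1 ≤ b) (h : Trans (b + 1) B τ) (X : M) (e e' : ℕ → ℝ)
    (he : ∀ j, 1 ≤ j → j < b → NL B (Am τ j (j + 1) (US τ X j)) (e j))
    (he' : ∀ j, 1 ≤ j → j + 1 < b → NL B (Am τ (j + 1) (j + 2) (US τ X j)) (e' j)) :
    B X X ≤ 2 * (b : ℝ) ^ 2 * B (US τ X b) (US τ X b)
      + 42 * (∑ j ∈ Ico 1 b, (j : ℝ) * ((j : ℝ) + 1) * e j
          + ∑ j ∈ Ico 1 (b - 1), (j : ℝ) * ((j : ℝ) + 1) * e' j) ^ 2 := by
  set S := ∑ j ∈ Ico 1 b, (j : ℝ) * ((j : ℝ) + 1) * e j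
          + ∑ j ∈ Ico 1 (b - 1), (j : ℝ) * ((j : ℝ) + 1) * e' j with hS
  set r := Real.sqrt (B X X) with hr
  have hr2 : r ^ 2 = B X X := Real.sq_sqrt (h.nonneg X)
  have hr0 : 0 ≤ r := Real.sqrt_nonneg _
  have hSe : ∀ j ∈ Ico 1 b, 0 ≤ (j : ℝ) * ((j : ℝ) + 1) * e j := by
    intro j hj
    have hj' := mem_Ico.1 hj
    have := (he j hj'.1 hj'.2).1
    positivity
  have hSe' : ∀ j ∈ Ico 1 (b - 1), 0 ≤ (j : ℝ) * ((j : ℝ) + 1) * e' j := by
    intro j hj
    have hj' := mem_Ico.1 hj
    have := (he' j hj'.1 (by omega)).1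
    positivity
  have hS1 : 0 ≤ ∑ j ∈ Ico 1 b, (j : ℝ) * ((j : ℝ) + 1) * e j := sum_nonneg hSe
  have hS2 : 0 ≤ ∑ j ∈ Ico 1 (b - 1), (j : ℝ) * ((j : ℝ) + 1) * e' j := sum_nonneg hSe'
  have hS0 : 0 ≤ S := by rw [hS]; linarith
  -- partial sums
  have hpart : ∀ j, 2 ≤ j → j < b → ∑ i ∈ Ico 1 j, (i : ℝ) * ((i : ℝ) + 1) * (e i + e' i) ≤ S := by
    intro j hj hjb
    have e1 : ∑ i ∈ Ico 1 j, (i : ℝ) * ((i : ℝ) + 1) * (e i + e' i) =
        ∑ i ∈ Ico 1 j, (i : ℝ) * ((i : ℝ) + 1) * e i
        + ∑ i ∈ Ico 1 j, (i : ℝ) * ((i : ℝ) + 1) * e' i := by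
      rw [← sum_add_distrib]; refine sum_congr rfl fun i _ => ?_; ring
    rw [e1, hS]
    refine add_le_add ?_ ?_
    · refine sum_le_sum_of_subset_of_nonneg (Ico_subset_Ico_right (by omega)) ?_
      intro i hi _; exact hSe i hi
    · refine sum_le_sum_of_subset_of_nonneg (Ico_subset_Ico_right (by omega)) ?_
      intro i hi _; exact hSe' i hi
  have htS : ∀ j ∈ Ico 1 b, (j : ℝ) * ((j : ℝ) + 1) * e j ≤ S := by
    intro j hj
    have := single_le_sum hSe hj
    rw [hS]; linarith
  -- the one step inequality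
  set Z : ℕ → ℝ := fun j => B (US τ X j) (US τ X j) with hZ
  set g : ℕ → ℝ := fun j => (j : ℝ) ^ 2 * Z j - ((j : ℝ) ^ 2 - 1) * Z (j + 1) with hg
  have hstep : ∀ j, 1 ≤ j → j < b → g j - g (j + 1) ≤
      (if j = 1 then 0 else 16 / (((j : ℝ) - 1) * ((j : ℝ) + 1))) * S ^ 2
        + (4 * r + S) * ((j : ℝ) * ((j : ℝ) + 1) * e j) := by
    intro j hj1 hjb
    have hid := ident h X hj1 (by omega : j + 1 < b + 1)
    have hjp : (1 : ℝ) ≤ j := by exact_mod_cast hj1
    have hgg : g j - g (j + 1) = j * ((j : ℝ) * Z j - 2 * ((j : ℝ) + 1) * Z (j + 1)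
        + ((j : ℝ) + 2) * Z (j + 2)) := by
      simp only [hg]; push_cast; ring
    rw [hgg]
    set R := ((j : ℝ) * Z j - 2 * ((j : ℝ) + 1) * Z (j + 1) + ((j : ℝ) + 2) * Z (j + 2)) with hR
    have hee := he j hj1 hjb
    have hUn : NL B (US τ X j) r := ⟨hr0, by rw [hr2]; exact US_norm_le h X (by omega)⟩
    have b1 : |B (τ 0 j (US τ X j)) (Am τ j (j + 1) (US τ X j))| ≤ r * e j :=
      NL.abs h (NL.tau h (by omega) (by omega) (by omega) hUn) hee
    have b2 : |B (τ 0 j (Am τ j (j + 1) (US τ X j))) (Am τ j (j + 1) (US τ X j))| ≤ e j * e j :=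
      NL.abs h (NL.tau h (by omega) (by omega) (by omega) hee) hee
    have b1' := (abs_le.1 b1).1
    have b2' := (abs_le.1 b2).2
    have b3 := h.nonneg (Am τ j (j + 1) (US τ X j))
    have he0 := hee.1
    set DD := B (Am τ 0 j (Am τ 1 (j + 1) (US τ X j))) (Am τ 0 j (Am τ 1 (j + 1) (US τ X j)))
      with hDD
    have hmain : ((j : ℝ) + 1) * R ≤ 4 * j * (j - 1) * DD + 4 * j * (j + 1) * (r * e j)
        + 4 * j ^ 2 * (e j * e j) := by
      have hid' : ((j : ℝ) + 1) * R = 4 * (j : ℝ) * ((j : ℝ) - 1) * DD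
        - 4 * (j : ℝ) * ((j : ℝ) + 1) * B (τ 0 j (US τ X j)) (Am τ j (j + 1) (US τ X j))
        + 4 * (j : ℝ) ^ 2 * B (τ 0 j (Am τ j (j + 1) (US τ X j))) (Am τ j (j + 1) (US τ X j))
        - 2 * B (Am τ j (j + 1) (US τ X j)) (Am τ j (j + 1) (US τ X j)) := hid
      rw [hid']
      have c1 : 0 ≤ 4 * (j : ℝ) * (j + 1) := by positivity
      have c2 : 0 ≤ 4 * (j : ℝ) ^ 2 := by positivity
      nlinarith [mul_le_mul_of_nonneg_left b1' c1, mul_le_mul_of_nonneg_left b2' c2]
    set t := (j : ℝ) * ((j : ℝ) + 1) * e j with ht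
    have ht0 : 0 ≤ t := by positivity
    have htS' : t ≤ S := htS j (mem_Ico.2 ⟨hj1, hjb⟩)
    have hA : j * (4 * j * (j + 1) * (r * e j)) ≤ ((j : ℝ) + 1) * (4 * r * t) := by
      have : ((j : ℝ) + 1) * (4 * r * t) - j * (4 * j * (j + 1) * (r * e j))
          = 4 * r * e j * j * (j + 1) := by rw [ht]; ring
      have h0 : 0 ≤ 4 * r * e j * j * (j + 1) := by positivity
      linarith
    have hB : j * (4 * j ^ 2 * (e j * e j)) ≤ ((j : ℝ) + 1) * (S * t) := by
      have h1 : ((j : ℝ) + 1) * (t * t) ≤ ((j : ℝ) + 1) * (S * t) :=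
        mul_le_mul_of_nonneg_left (mul_le_mul_of_nonneg_right htS' ht0) (by positivity)
      have h2 : (j : ℝ) * (4 * j ^ 2 * (e j * e j)) ≤ ((j : ℝ) + 1) * (t * t) := by
        have h3 : ((j : ℝ) + 1) * (t * t) - j * (4 * j ^ 2 * (e j * e j)) =
            (j ^ 2 * (e j) ^ 2) * (((j : ℝ) + 1) ^ 3 - 4 * j) := by rw [ht]; ring
        have h4 : 0 ≤ ((j : ℝ) + 1) ^ 3 - 4 * j := by nlinarith [sq_nonneg ((j : ℝ) - 1)]
        have h5 : 0 ≤ (j ^ 2 * (e j) ^ 2) * (((j : ℝ) + 1) ^ 3 - 4 * j) :=
          mul_nonneg (by positivity) h4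
        linarith
      linarith
    have hjR : ((j : ℝ) + 1) * (j * R) ≤ j * (4 * j * (j - 1) * DD) + ((j : ℝ) + 1) * (4 * r * t)
        + ((j : ℝ) + 1) * (S * t) := by
      have h1 : ((j : ℝ) + 1) * (j * R) = j * (((j : ℝ) + 1) * R) := by ring
      rw [h1]
      have h2 := mul_le_mul_of_nonneg_left hmain (by positivity : (0 : ℝ) ≤ j)
      linarith
    have hpos : (0 : ℝ) < (j : ℝ) + 1 := by positivity
    refine le_of_mul_le_mul_left ?_ hpos
    by_cases h1 : j = 1
    · subst h1
      simp only [if_true, Nat.cast_one] at hjR ⊢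
      linarith
    · have hj2 : 2 ≤ j := by omega
      have hj2' : (2 : ℝ) ≤ j := by exact_mod_cast hj2
      simp only [h1, if_false]
      have hdd := (D_acc h X e e' he he' j hj2 hjb).2
      have hp := hpart j hj2 hjb
      have hp0 : 0 ≤ ∑ i ∈ Ico 1 j, (i : ℝ) * ((i : ℝ) + 1) * (e i + e' i) := by
        refine sum_nonneg fun i hi => ?_
        have hi' := mem_Ico.1 hi
        have h3 := (he i hi'.1 (by omega)).1
        have h4 := (he' i hi'.1 (by omega)).1
        positivity
      have hjm : 0 < (j : ℝ) - 1 := by linarith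
      have hdd2 : DD * (j ^ 2 * (j - 1) ^ 2) ≤ 4 * S ^ 2 := by
        have h6 : (2 * (∑ i ∈ Ico 1 j, (i : ℝ) * ((i : ℝ) + 1) * (e i + e' i)) /
            ((j : ℝ) * ((j : ℝ) - 1))) ^ 2 * (j ^ 2 * (j - 1) ^ 2) =
            4 * (∑ i ∈ Ico 1 j, (i : ℝ) * ((i : ℝ) + 1) * (e i + e' i)) ^ 2 := by
          field_simp
          ring
        have h7 : (∑ i ∈ Ico 1 j, (i : ℝ) * ((i : ℝ) + 1) * (e i + e' i)) ^ 2 ≤ S ^ 2 :=
          pow_le_pow_left₀ hp0 hp 2
        have h8 := mul_le_mul_of_nonneg_right hdd (by positivity : 0 ≤ (j : ℝ) ^ 2 * (j - 1) ^ 2)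
        rw [h6] at h8
        linarith
      have hdd3 : (j : ℝ) * (4 * j * (j - 1) * DD) ≤ 16 / ((j : ℝ) - 1) * S ^ 2 := by
        rw [div_mul_eq_mul_div, le_div_iff₀ hjm]
        nlinarith
      have h9 : ((j : ℝ) + 1) * (16 / (((j : ℝ) - 1) * ((j : ℝ) + 1)) * S ^ 2
          + (4 * r + S) * t) = 16 / ((j : ℝ) - 1) * S ^ 2 + ((j : ℝ) + 1) * (4 * r * t)
            + ((j : ℝ) + 1) * (S * t) := by
        field_simp
        ring
      rw [h9]
      linarith
  -- sum up
  have hsum : ∀ j, 2 ≤ j → j ≤ b → g 1 - g j ≤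
      (12 - 8 / ((j : ℝ) - 1) - 8 / (j : ℝ)) * S ^ 2
        + (4 * r + S) * ∑ i ∈ Ico 1 j, ((i : ℝ) * ((i : ℝ) + 1) * e i) := by
    intro j hj2
    induction j, hj2 using Nat.le_induction with
    | base =>
      intro hb2
      have h1 := hstep 1 le_rfl (by omega)
      simp only [if_true, zero_mul, zero_add] at h1
      rw [Nat.Ico_succ_singleton, sum_singleton]
      norm_num at h1 ⊢
      linarith
    | succ j hj ih =>
      intro hjb
      have h1 := ih (by omega)
      have h2 := hstep j (by omega) (by omega)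
      have hj2' : (2 : ℝ) ≤ j := by exact_mod_cast hj
      have hne : j ≠ 1 := by omega
      simp only [hne, if_false] at h2
      rw [sum_Ico_succ_top (by omega)]
      have e1 : (12 - 8 / ((j : ℝ) - 1) - 8 / (j : ℝ)) + 16 / (((j : ℝ) - 1) * ((j : ℝ) + 1))
          = 12 - 8 / (((j + 1 : ℕ) : ℝ) - 1) - 8 / ((j + 1 : ℕ) : ℝ) := by
        have a1 : (j : ℝ) - 1 ≠ 0 := by linarith
        have a2 : (j : ℝ) ≠ 0 := by linarith
        have a3 : (j : ℝ) + 1 ≠ 0 := by linarith
        push_cast
        have e0 : (j : ℝ) + 1 - 1 = j := by ring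
        rw [e0]
        field_simp
        ring
      rw [← e1]
      nlinarith
  by_cases hb1 : b = 1
  · subst hb1
    rw [US_one]
    have h1 := h.nonneg X
    have h2 := sq_nonneg S
    norm_num
    nlinarith
  · have h1 := hsum b (by omega) le_rfl
    have hb2 : (2 : ℝ) ≤ b := by
      have : 2 ≤ b := by omega
      exact_mod_cast this
    have h2 : ∑ i ∈ Ico 1 b, ((i : ℝ) * ((i : ℝ) + 1) * e i) ≤ S := by rw [hS]; linarith
    have h3 : (4 * r + S) * ∑ i ∈ Ico 1 b, ((i : ℝ) * ((i : ℝ) + 1) * e i) ≤ (4 * r + S) * S :=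
      mul_le_mul_of_nonneg_left h2 (by positivity)
    have h4 : (12 - 8 / ((b : ℝ) - 1) - 8 / (b : ℝ)) * S ^ 2 ≤ 12 * S ^ 2 := by
      have a1 : 0 ≤ 8 / ((b : ℝ) - 1) := div_nonneg (by norm_num) (by linarith)
      have a2 : 0 ≤ 8 / (b : ℝ) := by positivity
      exact mul_le_mul_of_nonneg_right (by linarith) (sq_nonneg S)
    have h5 : g 1 = r ^ 2 := by
      simp only [hg, hZ, US_one]
      rw [hr2]; norm_num
    have h6 : g b ≤ (b : ℝ) ^ 2 * B (US τ X b) (US τ X b) := by
      have : 0 ≤ ((b : ℝ) ^ 2 - 1) * Z (b + 1) :=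
        mul_nonneg (by nlinarith) (h.nonneg _)
      simp only [hg, hZ] at this ⊢
      linarith
    rw [← hr2]
    nlinarith [sq_nonneg (r - 4 * S)]

end basic

end KLS94
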